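import Mathlib

/-!
Multiplication and divisibility-equivalence of ultrafilters.

The nonstandard extensions used here are ultrapowers: `*ℕ = ℕ^I/φ` for an ultrafilter `φ` on a
set `I`.
-/

set_option autoImplicit false

namespace Pool.Agent.Results.MP_5ff22d_lc.ProductsNotCompatible

open Filter

/-- The star-image `*S` of a set `S` of natural numbers in the ultrapower `*ℕ = ℕ^I/φ`: the class
of a function `f : I → ℕ` lies in `*S` iff `f i ∈ S` for `φ`-almost all `i`. -/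
def star {I : Type} (φ : Ultrafilter I) (S : Set ℕ) : Set (Germ (φ : Filter I) ℕ) :=
  {x | Germ.LiftPred (fun n => n ∈ S) x}

/-- `v(x) = {S ⊆ ℕ : x ∈ *S}`. -/
def v {I : Type} (φ : Ultrafilter I) (x : Germ (φ : Filter I) ℕ) : Set (Set ℕ) :=
  {S | x ∈ star φ S}

/-- `A↑`, the set of all `n` which are divisible by some element of `A`. -/
def up (A : Set ℕ) : Set ℕ := {n | ∃ a ∈ A, a ∣ n}

/-- `F` tilde-divides `G`: every set `A` in `F` with `A↑ = A` belongs to `G`. -/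
def TildeDvd (F G : Set (Set ℕ)) : Prop := ∀ A ∈ F, up A = A → A ∈ G

/-- Divisibility-equivalence `F =_∼ G`. -/
def TildeEq (F G : Set (Set ℕ)) : Prop := TildeDvd F G ∧ TildeDvd G F

/-- The product ultrafilter `H ⊗ H` of the hyperfilter `H` on `ℕ` with itself. -/
noncomputable def prodH : Ultrafilter (ℕ × ℕ) :=
  (hyperfilter ℕ).bind fun a => (hyperfilter ℕ).map (Prod.mk a)

theorem eventually_prodH (p : ℕ × ℕ → Prop) :
    (∀ᶠ i in (prodH : Filter (ℕ × ℕ)), p i) ↔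
      ∀ᶠ a in (hyperfilter ℕ : Filter ℕ), ∀ᶠ b in (hyperfilter ℕ : Filter ℕ), p (a, b) := by
  rfl

theorem eventually_ne : ∀ᶠ i in (prodH : Filter (ℕ × ℕ)), i.1 ≠ i.2 := by
  rw [eventually_prodH]
  refine Eventually.of_forall fun a => ?_
  have h : ({a}ᶜ : Set ℕ) ∈ hyperfilter ℕ := compl_mem_hyperfilter_of_finite (Set.finite_singleton a)
  filter_upwards [h] with b hb
  exact fun h => hb h.symm

/-- The hyperprimes `x = [(a, b) ↦ p_a]` and `y = [(a, b) ↦ p_b]`. -/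
noncomputable def x₀ : Germ (prodH : Filter (ℕ × ℕ)) ℕ := ((fun i : ℕ × ℕ => Nat.nth Nat.Prime i.1 : ℕ × ℕ → ℕ) : Germ (prodH : Filter (ℕ × ℕ)) ℕ)
/-- The hyperprime `y = [(a, b) ↦ p_b]`. -/
noncomputable def y₀ : Germ (prodH : Filter (ℕ × ℕ)) ℕ := ((fun i : ℕ × ℕ => Nat.nth Nat.Prime i.2 : ℕ × ℕ → ℕ) : Germ (prodH : Filter (ℕ × ℕ)) ℕ)

theorem v_eq : v prodH x₀ = v prodH y₀ := by
  ext S
  change (∀ᶠ i in (prodH : Filter (ℕ × ℕ)), Nat.nth Nat.Prime i.1 ∈ S) ↔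
    (∀ᶠ i in (prodH : Filter (ℕ × ℕ)), Nat.nth Nat.Prime i.2 ∈ S)
  rw [eventually_prodH, eventually_prodH]
  simp only [eventually_const]

/-- The set of all numbers divisible by two different primes. -/
def A₀ : Set ℕ := {n | ∃ p q : ℕ, p.Prime ∧ q.Prime ∧ p ≠ q ∧ p * q ∣ n}

theorem up_A₀ : up A₀ = A₀ := by
  ext n
  constructor
  · rintro ⟨a, ⟨p, q, hp, hq, hpq, h⟩, han⟩
    exact ⟨p, q, hp, hq, hpq, h.trans han⟩
  · intro h
    exact ⟨n, h, dvd_rfl⟩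

theorem mem_prod : A₀ ∈ v prodH (y₀ * x₀) := by
  change ∀ᶠ i in (prodH : Filter (ℕ × ℕ)),
    Nat.nth Nat.Prime i.2 * Nat.nth Nat.Prime i.1 ∈ A₀
  filter_upwards [eventually_ne] with i hi
  refine ⟨_, _, Nat.prime_nth_prime _, Nat.prime_nth_prime _, ?_, dvd_rfl⟩
  intro h
  exact hi (Nat.nth_injective Nat.infinite_setOfPred_prime h).symm

theorem notMem_sq : A₀ ∉ v prodH (x₀ * x₀) := by
  intro h
  change ∀ᶠ i in (prodH : Filter (ℕ × ℕ)),
    Nat.nth Nat.Prime i.1 * Nat.nth Nat.Prime i.1 ∈ A₀ at h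
  obtain ⟨i, p, q, hp, hq, hpq, hd⟩ := h.exists
  have hi := Nat.prime_nth_prime i.1
  have h1 : p = Nat.nth Nat.Prime i.1 := by
    have h2 : p ∣ Nat.nth Nat.Prime i.1 * Nat.nth Nat.Prime i.1 := (dvd_mul_right p q).trans hd
    rcases (Nat.Prime.dvd_mul hp).1 h2 with h3 | h3 <;>
      exact (Nat.prime_dvd_prime_iff_eq hp hi).1 h3
  have h1' : q = Nat.nth Nat.Prime i.1 := by
    have h2 : q ∣ Nat.nth Nat.Prime i.1 * Nat.nth Nat.Prime i.1 := (dvd_mul_left q p).trans hd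
    rcases (Nat.Prime.dvd_mul hq).1 h2 with h3 | h3 <;>
      exact (Nat.prime_dvd_prime_iff_eq hq hi).1 h3
  exact hpq (h1.trans h1'.symm)

/-- There is a nonstandard extension (an ultrapower of `ℕ`) with elements `x, y, z` of `*P`, where
`P` is the set of primes, such that `v(x) = v(y)`, in particular `v(x) =_∼ v(y)`, but not
`v(x z) =_∼ v(y z)`. -/
theorem result : ∃ (I : Type) (φ : Ultrafilter I) (x y z : Germ (φ : Filter I) ℕ),
    x ∈ star φ {p | p.Prime} ∧ y ∈ star φ {p | p.Prime} ∧ z ∈ star φ {p | p.Prime} ∧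
    v φ x = v φ y ∧ TildeEq (v φ x) (v φ y) ∧ ¬ TildeEq (v φ (x * z)) (v φ (y * z)) := by
  have hx : x₀ ∈ star prodH {p | p.Prime} := by
    change ∀ᶠ i in (prodH : Filter (ℕ × ℕ)), Nat.nth Nat.Prime i.1 ∈ {p : ℕ | p.Prime}
    exact Eventually.of_forall fun i => Nat.prime_nth_prime _
  have hy : y₀ ∈ star prodH {p | p.Prime} := by
    change ∀ᶠ i in (prodH : Filter (ℕ × ℕ)), Nat.nth Nat.Prime i.2 ∈ {p : ℕ | p.Prime}
    exact Eventually.of_forall fun i => Nat.prime_nth_prime _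
  refine ⟨ℕ × ℕ, prodH, x₀, y₀, x₀, hx, hy, hx, v_eq, ?_, ?_⟩
  · rw [v_eq]
    exact ⟨fun A hA _ => hA, fun A hA _ => hA⟩
  · rintro ⟨-, h⟩
    exact notMem_sq (h A₀ mem_prod up_A₀)

end Pool.Agent.Results.MP_5ff22d_lc.ProductsNotCompatible
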